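import Pool.Agent.Run7.h428.NF.Stm

/-!
# Project NF15 (helper483): the places of degree one above `3` and `5`
-/

set_option autoImplicit false
set_option linter.unusedVariables false
set_option linter.unusedSectionVars false

namespace Run7.h483.NF

open NumberField IsDedekindDomain WeierstrassCurve
open Pool.Agent.W189.NF (aV eV aLoc eLoc Ov finite_res card_res)
open Pool.Agent.H921R2.TatePole (below deg nm nm_eq)
open Pool.Agent.Y698 (v_unit)
open Run7.h428.NF (S_MUL S_M15 EF)
open Run7.h555.P15 (WT)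

/-- the invariants of the twist -/
theorem inv {D : ℤ} (hD : D % 4 = 1) : (WT D).c₄ = 481 * D ^ 2 ∧ (WT D).c₆ = 4879 * D ^ 3 ∧
    (WT D).Δ = 50625 * D ^ 6 := by
  obtain ⟨m, rfl⟩ : ∃ m, D = 4 * m + 1 := ⟨D / 4, by omega⟩
  have c1 : (5 * (4 * m + 1) - 1) / 4 = 5 * m + 1 := by omega
  have c2 : (19 * (4 * m + 1) ^ 2 + 1) / 2 = 152 * m ^ 2 + 76 * m + 10 := by
    rw [show 19 * (4 * m + 1) ^ 2 + 1 = 2 * (152 * m ^ 2 + 76 * m + 10) by ring]
    omega
  have c3 : (39 * (4 * m + 1) ^ 3 + 1) / 4 = 39 * (16 * m ^ 3 + 12 * m ^ 2 + 3 * m) + 10 := by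
    rw [show 39 * (4 * m + 1) ^ 3 + 1 = 4 * (39 * (16 * m ^ 3 + 12 * m ^ 2 + 3 * m) + 10) by ring]
    omega
  unfold WT
  rw [c1, c2, c3]
  refine ⟨?_, ?_, ?_⟩
  · simp only [WeierstrassCurve.c₄, WeierstrassCurve.b₂, WeierstrassCurve.b₄]
    ring
  · simp only [WeierstrassCurve.c₆, WeierstrassCurve.b₂, WeierstrassCurve.b₄, WeierstrassCurve.b₆]
    ring
  · simp only [WeierstrassCurve.Δ, WeierstrassCurve.b₂, WeierstrassCurve.b₄, WeierstrassCurve.b₆,
      WeierstrassCurve.b₈]
    ring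

/-- the integers in a field with `p` elements -/
theorem sq_iff {k : Type} [Field k] {p : ℕ} [Fact p.Prime] (hk : Nat.card k = p) (x : ℤ) :
    IsSquare ((x : ℤ) : k) ↔ IsSquare ((x : ℤ) : ZMod p) := by
  have hfin : Finite k := Nat.finite_of_card_ne_zero (by
    rw [hk]
    exact (Fact.out : p.Prime).ne_zero)
  have : Fintype k := Fintype.ofFinite k
  have e := ZMod.ringEquivOfPrime k (Fact.out : p.Prime) (by rw [← Nat.card_eq_fintype_card, hk])
  constructor
  · rintro ⟨r, hr⟩
    refine ⟨e.symm r, ?_⟩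
    have h := congrArg e.symm hr
    rw [map_intCast, map_mul] at h
    exact h
  · rintro ⟨r, hr⟩
    refine ⟨e r, ?_⟩
    have h := congrArg e hr
    rw [map_intCast, map_mul] at h
    exact h

theorem zero_iff {k : Type} [Field k] {p : ℕ} [Fact p.Prime] (hk : Nat.card k = p) (x : ℤ) :
    ((x : ℤ) : k) = 0 ↔ (p : ℤ) ∣ x := by
  have hfin : Finite k := Nat.finite_of_card_ne_zero (by
    rw [hk]
    exact (Fact.out : p.Prime).ne_zero)
  have : Fintype k := Fintype.ofFinite k
  have e := ZMod.ringEquivOfPrime k (Fact.out : p.Prime) (by rw [← Nat.card_eq_fintype_card, hk])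
  rw [← ZMod.intCast_zmod_eq_zero_iff_dvd, ← map_intCast e, map_eq_zero_iff e e.injective]

theorem ns3 : ¬ IsSquare (-(481 * 1 ^ 2 * (4879 * 1 ^ 3)) : ZMod 3) := by decide

theorem ns5 : ¬ IsSquare (-(481 * ((2 : ℤ) : ZMod 5) ^ 2 * (4879 * ((2 : ℤ) : ZMod 5) ^ 3)) :
    ZMod 5) := by decide

theorem ns5' : ¬ IsSquare (-(481 * ((3 : ℤ) : ZMod 5) ^ 2 * (4879 * ((3 : ℤ) : ZMod 5) ^ 3)) :
    ZMod 5) := by decide

/-- **M15** -/
theorem t_M15 : S_M15 := by
  intro hMUL F _ _ v n hn hb hdeg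
  set D : ℤ := -(n : ℤ) with hD
  have hD4 : D % 4 = 1 := by omega
  obtain ⟨i4, i6, iΔ⟩ := inv hD4
  obtain ⟨n1, n2, n3⟩ := nm_eq v
  have hfin := finite_res v
  have hcard : Nat.card (IsLocalRing.ResidueField (Ov v)) = (below v : ℕ) := by
    have h : Nat.card (IsLocalRing.ResidueField (Ov v)) = (below v : ℕ) ^ deg v := by
      rw [← n1]
      exact card_res v
    rw [h, hdeg, pow_one]
  have hp : Fact (below v : ℕ).Prime := ⟨(below v).2⟩
  have hW : (EF F D).baseChange (v.adicCompletion F) =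
      ((WT D).map (Int.castRingHom (Ov v))).map (algebraMap (Ov v) (v.adicCompletion F)) := by
    unfold EF WeierstrassCurve.baseChange
    rw [WeierstrassCurve.map_map, WeierstrassCurve.map_map]
    congr 1
    exact RingHom.ext_int _ _
  have hD0 : D ≠ 0 := by omega
  -- the values in the residue field
  have hres : ∀ x : ℤ, IsLocalRing.residue (Ov v) ((x : ℤ) : Ov v) =
      ((x : ℤ) : IsLocalRing.ResidueField (Ov v)) := fun x => map_intCast _ _
  have hΔ : ((WT D).map (Int.castRingHom (Ov v))).Δ = (((50625 * D ^ 6 : ℤ)) : Ov v) := by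
    rw [map_Δ, iΔ]
    rfl
  have h4 : ((WT D).map (Int.castRingHom (Ov v))).c₄ = (((481 * D ^ 2 : ℤ)) : Ov v) := by
    rw [map_c₄, i4]
    rfl
  have h6 : ((WT D).map (Int.castRingHom (Ov v))).c₆ = (((4879 * D ^ 3 : ℤ)) : Ov v) := by
    rw [map_c₆, i6]
    rfl
  have hp35 : ((below v : ℕ) : ℤ) ∣ 50625 * D ^ 6 := by
    refine Dvd.dvd.mul_right ?_ _
    rcases hb with h | h <;> rw [h] <;> norm_num
  have hD3 : D % 3 = 1 := by omega
  have hD5 : D % 5 = 2 ∨ D % 5 = 3 := by omega
  have hnd : ¬ ((below v : ℕ) : ℤ) ∣ 481 * D ^ 2 := by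
    intro h
    have hpp : Prime ((below v : ℕ) : ℤ) := Nat.prime_iff_prime_int.1 (below v).2
    rcases hpp.dvd_or_dvd h with h | h
    · rcases hb with h' | h' <;> rw [h'] at h <;> norm_num at h
    · have h' := hpp.dvd_of_dvd_pow h
      rcases hb with h'' | h'' <;> rw [h''] at h' <;> omega
  have hns : ¬ IsSquare (((-((481 * D ^ 2) * (4879 * D ^ 3)) : ℤ)) :
      IsLocalRing.ResidueField (Ov v)) := by
    rcases hb with h | h
    · rw [h] at hcard
      have : Fact (Nat.Prime 3) := ⟨Nat.prime_three⟩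
      rw [sq_iff hcard]
      have e : ((D : ℤ) : ZMod 3) = 1 := by
        rw [← Int.cast_one, ZMod.intCast_eq_intCast_iff']
        push_cast
        omega
      push_cast
      rw [e]
      exact ns3
    · rw [h] at hcard
      have : Fact (Nat.Prime 5) := ⟨Nat.prime_five⟩
      rw [sq_iff hcard]
      rcases hD5 with h5 | h5
      · have e : ((D : ℤ) : ZMod 5) = ((2 : ℤ) : ZMod 5) := by
          rw [ZMod.intCast_eq_intCast_iff']
          push_cast
          omega
        push_cast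
        rw [e]
        exact ns5
      · have e : ((D : ℤ) : ZMod 5) = ((3 : ℤ) : ZMod 5) := by
          rw [ZMod.intCast_eq_intCast_iff']
          push_cast
          omega
        push_cast
        rw [e]
        exact ns5'
  have key := hMUL (Ov v) (v.adicCompletion F) ((WT D).map (Int.castRingHom (Ov v)))
  rw [← hW] at key
  refine key ?_ ?_ ?_ ?_ ?_
  · have h := zero_iff hcard 2
    intro h2
    have h3 : (((2 : ℤ)) : IsLocalRing.ResidueField (Ov v)) = 0 := by
      push_cast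
      exact h2
    have h4 := h.1 h3
    rcases hb with h' | h' <;> rw [h'] at h4 <;> norm_num at h4
  · rw [hΔ]
    intro hu
    have h := (hu.map (IsLocalRing.residue (Ov v))).ne_zero
    rw [hres] at h
    exact h ((zero_iff hcard _).2 hp35)
  · rw [hΔ]
    intro h
    have h1 := congrArg (algebraMap (Ov v) (v.adicCompletion F)) h
    rw [map_intCast, map_zero] at h1
    have hc : CharZero (v.adicCompletion F) :=
      charZero_of_injective_algebraMap (algebraMap F (v.adicCompletion F)).injective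
    have h2 : (50625 * D ^ 6 : ℤ) = 0 := by exact_mod_cast h1
    have h3 : (50625 * D ^ 6 : ℤ) ≠ 0 := by positivity
    exact h3 h2
  · rw [h4]
    by_contra hu
    have h1 : IsLocalRing.residue (Ov v) (((481 * D ^ 2 : ℤ)) : Ov v) = 0 :=
      (IsLocalRing.residue_eq_zero_iff _).2 ((IsLocalRing.mem_maximalIdeal _).2 hu)
    rw [hres] at h1
    exact hnd ((zero_iff hcard _).1 h1)
  · rw [h4, h6]
    have e : -((((481 * D ^ 2 : ℤ)) : Ov v) * (((4879 * D ^ 3 : ℤ)) : Ov v)) =
        (((-((481 * D ^ 2) * (4879 * D ^ 3)) : ℤ)) : Ov v) := by push_cast; ring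
    rw [e, hres]
    exact hns

end Run7.h483.NF
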