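import Pool.Agent.Run7.h428.NF.Stm

/-!
# Project NF15 (helper483): nonsplit multiplicative reduction
-/

set_option autoImplicit false
set_option linter.unusedVariables false
set_option linter.unusedSectionVars false

namespace Run7.h483.NF

open NumberField IsDedekindDomain WeierstrassCurve
open Pool.Agent.W189.NF (aV eV aLoc eLoc)
open Pool.Agent.Y698 (v_unit)
open IsDiscreteValuationRing
open Run7.h428.NF (S_MUL)

/-- split reduction makes `-c₄ c₆` a square -/
theorem split_sq {k : Type} [Field k] (a₁ a₂ b₂ b₄ b₆ c₄ c₆ : k) (hb : b₂ = a₁ ^ 2 + 4 * a₂)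
    (h4 : c₄ = b₂ ^ 2 - 24 * b₄) (h6 : c₆ = -b₂ ^ 3 + 36 * b₂ * b₄ - 216 * b₆) (hc : c₄ ≠ 0)
    (h : Polynomial.Splits (Polynomial.C c₄ * Polynomial.X ^ 2 +
      Polynomial.C (a₁ * c₄) * Polynomial.X -
      Polynomial.C (54 * b₆ - 3 * b₂ * b₄ + a₂ * c₄))) : IsSquare (-(c₄ * c₆)) := by
  have hd : (Polynomial.C c₄ * Polynomial.X ^ 2 +
      Polynomial.C (a₁ * c₄) * Polynomial.X -
      Polynomial.C (54 * b₆ - 3 * b₂ * b₄ + a₂ * c₄)).degree = 2 := by
    have e : (Polynomial.C c₄ * Polynomial.X ^ 2 +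
      Polynomial.C (a₁ * c₄) * Polynomial.X -
      Polynomial.C (54 * b₆ - 3 * b₂ * b₄ + a₂ * c₄)) = (Polynomial.C c₄ * Polynomial.X ^ 2 +
      Polynomial.C (a₁ * c₄) * Polynomial.X +
      Polynomial.C (-(54 * b₆ - 3 * b₂ * b₄ + a₂ * c₄))) := by
      rw [Polynomial.C_neg, sub_eq_add_neg]
    rw [e]
    exact Polynomial.degree_quadratic hc
  obtain ⟨x, hx⟩ := h.exists_eval_eq_zero (by rw [hd]; decide)
  simp only [Polynomial.eval_sub, Polynomial.eval_add, Polynomial.eval_mul, Polynomial.eval_C,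
    Polynomial.eval_pow, Polynomial.eval_X] at hx
  refine ⟨2 * c₄ * x + a₁ * c₄, ?_⟩
  subst hb h6
  linear_combination (-4 * c₄) * hx - c₄ * (a₁ ^ 2 + 4 * a₂) * h4

/-- **MUL** -/
theorem t_MUL : S_MUL := by
  intro R _ _ _ L _ _ _ W₀ _ hΔu hΔ0 hc4 hsq
  set W := W₀.map (algebraMap R L) with hW
  set v := (maximalIdeal R).valuation L with hv
  obtain ⟨C, hC⟩ : ∃ C : VariableChange L, W.minimal R = C • W := ⟨_, rfl⟩
  set u : L := ((C.u⁻¹ : Lˣ) : L) with hu
  have hd : (W.minimal R).Δ = u ^ 12 * W.Δ := by rw [hC, variableChange_Δ]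
  have h4 : (W.minimal R).c₄ = u ^ 4 * W.c₄ := by rw [hC, variableChange_c₄]
  have h6 : (W.minimal R).c₆ = u ^ 6 * W.c₆ := by rw [hC, variableChange_c₆]
  have hWint : IsIntegral R W := ⟨⟨W₀, hW⟩⟩
  have hmin : IsMinimal R (W.minimal R) := inferInstance
  have hWΔ : W.Δ = algebraMap R L W₀.Δ := by rw [hW, map_Δ]
  have hW4 : W.c₄ = algebraMap R L W₀.c₄ := by rw [hW, map_c₄]
  have hW6 : W.c₆ = algebraMap R L W₀.c₆ := by rw [hW, map_c₆]
  have hvW4 : v W.c₄ = 1 := by
    rw [hW4]
    exact v_unit R hc4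
  have hvΔ1 : v W.Δ < 1 := by
    rw [hWΔ, hv, HeightOneSpectrum.valuation_lt_one_iff_mem]
    exact (IsLocalRing.mem_maximalIdeal _).2 hΔu
  have hΔne : W.Δ ≠ 0 := by
    rw [hWΔ]
    exact (map_ne_zero_iff _ (IsFractionRing.injective R L)).2 hΔ0
  -- `v u ≤ 1`
  have k1 : v (W.minimal R).c₄ ≤ 1 := by
    rw [← integralModel_c₄_eq R (W.minimal R)]
    exact HeightOneSpectrum.valuation_le_one _ _
  have k2 : v u ≤ 1 := by
    rw [h4, map_mul, hvW4, mul_one, map_pow] at k1
    exact (pow_le_one_iff (by norm_num)).1 k1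
  -- `1 ≤ v u`
  have k3 : v W.Δ ≤ v (W.minimal R).Δ := by
    obtain ⟨h1, h2⟩ := hmin.val_Δ_maximal
    have e1 : C⁻¹ • W.minimal R = W := by rw [hC, inv_smul_smul]
    have h3 := h2 (j := C⁻¹) (by simp only [e1]; exact hWint)
    simp only [e1, one_smul] at h3
    by_contra hcon
    rw [not_le] at hcon
    have hle : valuation_Δ_aux R (W.minimal R) ≤ valuation_Δ_aux R W := by
      rw [← Subtype.coe_le_coe, valuation_Δ_aux_eq_of_isIntegral R W,
        valuation_Δ_aux_eq_of_isIntegral R (W.minimal R)]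
      exact hcon.le
    have h5 := congrArg Subtype.val (le_antisymm hle (h3 hle))
    rw [valuation_Δ_aux_eq_of_isIntegral, valuation_Δ_aux_eq_of_isIntegral] at h5
    exact hcon.ne h5
  have k4 : v u = 1 := by
    refine le_antisymm k2 ?_
    rw [hd, map_mul, map_pow] at k3
    have h0 : v W.Δ ≠ 0 := (Valuation.ne_zero_iff _).2 hΔne
    by_contra hcon
    rw [not_le] at hcon
    have h7 : v u ^ 12 < 1 := pow_lt_one' hcon (by norm_num)
    have h8 : v u ^ 12 * v W.Δ < 1 * v W.Δ := mul_lt_mul_of_pos_right h7 (zero_lt_iff.2 h0)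
    rw [one_mul] at h8
    exact absurd k3 (not_le.2 h8)
  -- the reduction of the minimal model
  have m1 : v (W.minimal R).c₄ = 1 := by
    rw [h4, map_mul, hvW4, map_pow, k4, one_pow, mul_one]
  have m2 : v (W.minimal R).Δ < 1 := by
    rw [hd, map_mul, map_pow, k4, one_pow, one_mul]
    exact hvΔ1
  have hmult : (W.minimal R).HasMultiplicativeReduction R := ⟨m2, m1⟩
  have hgood : ¬ (W.minimal R).HasGoodReduction R := hmult.not_hasGoodReduction
  -- the unit
  obtain ⟨w, hw⟩ := exists_lift_of_le_one (A := R) (K := L) (x := u) k2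
  have i4 : ((W.minimal R).integralModel R).c₄ = w ^ 4 * W₀.c₄ := by
    apply IsFractionRing.injective R L
    rw [integralModel_c₄_eq, h4, hW4, map_mul, map_pow, hw]
  have i6 : ((W.minimal R).integralModel R).c₆ = w ^ 6 * W₀.c₆ := by
    apply IsFractionRing.injective R L
    rw [integralModel_c₆_eq, h6, hW6, map_mul, map_pow, hw]
  have hwu : IsLocalRing.residue R w ≠ 0 := by
    intro h
    rw [IsLocalRing.residue_eq_zero_iff] at h
    have h9 : v u < 1 := by
      rw [← hw, hv, HeightOneSpectrum.valuation_lt_one_iff_mem]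
      exact h
    rw [k4] at h9
    exact lt_irrefl _ h9
  have hns : ¬ (W.minimal R).HasSplitMultiplicativeReduction R := by
    intro hs
    have h1 := hs.splitMultiplicativeReduction
    apply hsq
    set I := (W.minimal R).integralModel R with hI
    have hIc : IsLocalRing.residue R I.c₄ ≠ 0 := by
      rw [i4, map_mul, map_pow]
      refine mul_ne_zero (pow_ne_zero _ hwu) ?_
      exact (hc4.map (IsLocalRing.residue R)).ne_zero
    have e54 : IsLocalRing.residue R (54 : R) = 54 := map_ofNat _ 54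
    have e3 : IsLocalRing.residue R (3 : R) = 3 := map_ofNat _ 3
    have h2 : IsSquare (-(IsLocalRing.residue R I.c₄ * IsLocalRing.residue R I.c₆)) := by
      rw [← map_c₄, ← map_c₆]
      refine split_sq (I.map (IsLocalRing.residue R)).a₁ (I.map (IsLocalRing.residue R)).a₂
        (I.map (IsLocalRing.residue R)).b₂ (I.map (IsLocalRing.residue R)).b₄
        (I.map (IsLocalRing.residue R)).b₆ _ _ rfl rfl rfl ?_ ?_
      · rw [map_c₄]
        exact hIc
      · have e : algebraMap R (IsLocalRing.ResidueField R) = IsLocalRing.residue R := rfl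
        have f1 : IsLocalRing.residue R (I.a₁ * I.c₄) =
            (I.map (IsLocalRing.residue R)).a₁ * IsLocalRing.residue R I.c₄ := map_mul _ _ _
        have f2 : IsLocalRing.residue R (54 * I.b₆ - 3 * I.b₂ * I.b₄ + I.a₂ * I.c₄) =
            54 * IsLocalRing.residue R I.b₆ -
              3 * IsLocalRing.residue R I.b₂ * IsLocalRing.residue R I.b₄ +
              (I.map (IsLocalRing.residue R)).a₂ * IsLocalRing.residue R I.c₄ := by
          rw [RingHom.map_add, RingHom.map_sub, RingHom.map_mul, RingHom.map_mul, RingHom.map_mul,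
            RingHom.map_mul, e54, e3]
          rfl
        rw [e, Polynomial.map_sub, Polynomial.map_add, Polynomial.map_mul, Polynomial.map_mul,
          Polynomial.map_pow, Polynomial.map_X, Polynomial.map_C, Polynomial.map_C,
          Polynomial.map_C, f1, f2] at h1
        rw [map_c₄, map_b₂, map_b₄, map_b₆]
        exact h1
    rw [i4, i6] at h2
    have h3 : -(IsLocalRing.residue R (w ^ 4 * W₀.c₄) * IsLocalRing.residue R (w ^ 6 * W₀.c₆)) =
        (IsLocalRing.residue R w ^ 5) ^ 2 * IsLocalRing.residue R (-(W₀.c₄ * W₀.c₆)) := by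
      simp only [map_mul, map_pow, map_neg]
      ring
    rw [h3] at h2
    obtain ⟨t, ht⟩ := h2
    refine ⟨t / IsLocalRing.residue R w ^ 5, ?_⟩
    have h5 : IsLocalRing.residue R w ^ 5 ≠ 0 := pow_ne_zero _ hwu
    rw [div_mul_div_comm, eq_div_iff (mul_ne_zero h5 h5), ← ht]
    ring
  unfold aLoc eLoc
  rw [if_neg hgood, if_neg hgood, if_neg hns, if_pos hmult]
  exact ⟨rfl, rfl⟩

end Run7.h483.NF
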